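import Pool.Agent.Q258.Dde.Seq

set_option autoImplicit false

namespace Pool.Agent.Results.MP_828339_co.NoFiniteFamily

open Pool.Agent.Q258.Dde Filter Topology

lemma star_reach (a : ℕ) (v : Fin (a + 1)) : (starG a).Reachable 0 v := by
  refine Fin.cases (SimpleGraph.Reachable.refl _) (fun j => ?_) v
  apply SimpleGraph.Adj.reachable
  unfold starG
  rw [SimpleGraph.fromEdgeSet_adj]
  exact ⟨⟨j, rfl⟩, Ne.symm (Fin.succ_ne_zero j)⟩

lemma star_conn (a : ℕ) : (starG a).Connected :=
  SimpleGraph.connected_iff _ |>.mpr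
    ⟨fun u v => (star_reach a u).symm.trans (star_reach a v), ⟨0⟩⟩

lemma spid_reach (a : ℕ) (v : Fin (a + 1) ⊕ Fin 2) : (spid a).Reachable (Sum.inl 0) v := by
  have h1 : (spid a).Adj (Sum.inl 0) (Sum.inr 0) := by
    unfold spid
    rw [SimpleGraph.fromEdgeSet_adj]
    exact ⟨Or.inr (Or.inr rfl), by simp⟩
  have h2 : (spid a).Adj (Sum.inr 0) (Sum.inr 1) := by
    unfold spid
    rw [SimpleGraph.fromEdgeSet_adj]
    exact ⟨Or.inr (Or.inl rfl), by simp⟩
  rcases v with v | v
  · refine Fin.cases (SimpleGraph.Reachable.refl _) (fun j => ?_) v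
    apply SimpleGraph.Adj.reachable
    unfold spid
    rw [SimpleGraph.fromEdgeSet_adj]
    exact ⟨Or.inl ⟨j, rfl⟩, by simp [Ne.symm (Fin.succ_ne_zero j)]⟩
  · fin_cases v
    · exact h1.reachable
    · exact h1.reachable.trans h2.reachable

lemma spid_conn (a : ℕ) : (spid a).Connected :=
  SimpleGraph.connected_iff _ |>.mpr
    ⟨fun u v => (spid_reach a u).symm.trans (spid_reach a v), ⟨Sum.inl 0⟩⟩

/-- For every finite family of graphon sequences there are connected graphs G, H with finite density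
domination exponent ρ such that for no sequence of the family the ratios
log t(H,W_n) / log t(G,W_n) converge to ρ. -/
theorem result : ∀ (m : ℕ) (F : Fin m → ℕ → Graphon),
    ∃ (V₁ V₂ : Type) (_ : Fintype V₁) (_ : Fintype V₂) (G : SimpleGraph V₁)
      (H : SimpleGraph V₂) (ρ : ℝ), G.Connected ∧ H.Connected ∧ IsDominationExponent G H ρ ∧
      ∀ j : Fin m, ¬ Tendsto
        (fun n => Real.log (homDensity H (F j n)) / Real.log (homDensity G (F j n)))
        atTop (𝓝 ρ) := by
  intro m F
  by_contra hcon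
  push Not at hcon
  have h : ∀ i : Fin (m + 1), ∃ j : Fin m, Tendsto (fun n => rat (i.val + 1) (F j n)) atTop
      (𝓝 (((i.val + 1 : ℕ) : ℝ) / ((i.val + 1 : ℕ) + 1))) := by
    intro i
    exact hcon _ _ _ _ (spid (i.val + 1 + 1)) (starG (i.val + 1)) _ (spid_conn _) (star_conn _)
      (exponent (i.val + 1) (by omega))
  choose f hf using h
  obtain ⟨i, k, hik, hfik⟩ := Fintype.exists_ne_map_eq_of_card_lt f (by simp)
  rcases lt_or_gt_of_ne hik with hlt | hlt
  · exact not_two (F (f i)) (i.val + 1) (k.val + 1) (by omega) (by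
      have : i.val < k.val := hlt
      omega) (hf i) (by rw [hfik]; exact hf k)
  · exact not_two (F (f i)) (k.val + 1) (i.val + 1) (by omega) (by
      have : k.val < i.val := hlt
      omega) (by rw [hfik]; exact hf k) (hf i)

end Pool.Agent.Results.MP_828339_co.NoFiniteFamily
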